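import Mathlib

/-!
`SL_k(ℤ)`, `k ≥ 2`, acts transitively on the nonzero vectors modulo a prime.
-/

set_option autoImplicit false
open Filter Topology Finset

namespace Pool.Agent.JAL

/-- the action on the nonzero vectors modulo `p` -/
noncomputable def nz (k p : ℕ) : Matrix.SpecialLinearGroup (Fin k) ℤ →*
    Equiv.Perm {v : Fin k → ZMod p // v ≠ 0} where
  toFun g := (Matrix.SpecialLinearGroup.toLin' (Matrix.SpecialLinearGroup.map
    (Int.castRingHom (ZMod p)) g)).toEquiv.subtypeEquiv (fun v => by simp)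
  map_one' := by
    ext v
    simp
  map_mul' g h := by
    ext v
    simp

theorem nz_apply (k p : ℕ) (g : Matrix.SpecialLinearGroup (Fin k) ℤ)
    (v : {v : Fin k → ZMod p // v ≠ 0}) :
    (nz k p g v).1 = (g.1.map (Int.castRingHom (ZMod p))).mulVec v.1 := rfl

/-- a transvection with an arbitrary column `u`, `u j = 0` -/
def col {k : ℕ} (j : Fin k) (u : Fin k → ℤ) (h : u j = 0) : Matrix.SpecialLinearGroup (Fin k) ℤ :=
  ⟨1 + Matrix.vecMulVec u (Pi.single j 1), by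
    rw [Matrix.vecMulVec_eq Unit, Matrix.det_one_add_replicateCol_mul_replicateRow,
      single_dotProduct, one_mul, h, add_zero]⟩

theorem nz_col {k p : ℕ} (j : Fin k) (u : Fin k → ℤ) (h : u j = 0)
    (v : {v : Fin k → ZMod p // v ≠ 0}) (i : Fin k) :
    (nz k p (col j u h) v).1 i = v.1 i + (u i : ZMod p) * v.1 j := by
  rw [nz_apply]
  have h1 : (col j u h).1.map (Int.castRingHom (ZMod p)) =
      1 + Matrix.vecMulVec (fun i => (u i : ZMod p)) (Pi.single j 1) := by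
    ext a b
    simp only [col, Matrix.map_apply, Matrix.add_apply, Matrix.vecMulVec_apply, map_add, map_mul,
      Matrix.one_apply, Pi.single_apply]
    split_ifs <;> simp
  rw [h1, Matrix.add_mulVec, Matrix.one_mulVec, Pi.add_apply, Matrix.vecMulVec_mulVec]
  simp

theorem link {k p : ℕ} [Fact p.Prime] (v w : {v : Fin k → ZMod p // v ≠ 0}) (j : Fin k)
    (hv : v.1 j ≠ 0) (h : w.1 j = v.1 j) : ∃ g, nz k p g v = w := by
  have hu : ((((w.1 j - v.1 j) / v.1 j : ZMod p).val : ℕ) : ℤ) = 0 := by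
    rw [h, sub_self, zero_div, ZMod.val_zero]
    rfl
  refine ⟨col j (fun i => (((w.1 i - v.1 i) / v.1 j : ZMod p).val : ℤ)) hu, ?_⟩
  apply Subtype.ext
  funext i
  rw [nz_col]
  show v.1 i + (((((w.1 i - v.1 i) / v.1 j : ZMod p).val : ℕ) : ℤ) : ZMod p) * v.1 j = w.1 i
  rw [Int.cast_natCast, ZMod.natCast_zmod_val, div_mul_cancel₀ _ hv]
  ring

theorem to_one {k p : ℕ} [Fact p.Prime] (hk : 2 ≤ k) (v w : {v : Fin k → ZMod p // v ≠ 0})
    (hw : ∀ i, w.1 i = 1) : ∃ g, nz k p g v = w := by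
  classical
  obtain ⟨j, hj⟩ : ∃ j, v.1 j ≠ 0 := by
    by_contra hcon
    push Not at hcon
    exact v.2 (funext hcon)
  have hcard : 1 < Fintype.card (Fin k) := by
    rw [Fintype.card_fin]
    omega
  obtain ⟨i, hi⟩ := Fintype.exists_ne_of_one_lt_card hcard j
  let z : {v : Fin k → ZMod p // v ≠ 0} := ⟨fun l => if l = j then v.1 j else 1, by
    intro h
    have h1 := congrFun h i
    simp only [hi, if_false, Pi.zero_apply] at h1
    exact one_ne_zero h1⟩
  have hz1 : z.1 j = v.1 j := if_pos rfl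
  have hz2 : z.1 i = 1 := if_neg hi
  obtain ⟨g, hg⟩ := link v z j hj hz1
  obtain ⟨g', hg'⟩ := link z w i (by rw [hz2]; exact one_ne_zero) (by rw [hz2, hw])
  refine ⟨g' * g, ?_⟩
  rw [map_mul, Equiv.Perm.mul_apply, hg, hg']

theorem nz_trans {k p : ℕ} [Fact p.Prime] (hk : 2 ≤ k) (v w : {v : Fin k → ZMod p // v ≠ 0}) :
    ∃ g, nz k p g v = w := by
  let e : {v : Fin k → ZMod p // v ≠ 0} := ⟨fun _ => 1, by
    intro h
    have h1 := congrFun h ⟨0, by omega⟩
    exact one_ne_zero h1⟩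
  obtain ⟨g, hg⟩ := to_one hk v e (fun _ => rfl)
  obtain ⟨g', hg'⟩ := to_one hk w e (fun _ => rfl)
  refine ⟨g'⁻¹ * g, ?_⟩
  rw [map_mul, Equiv.Perm.mul_apply, hg, map_inv, ← hg']
  exact Equiv.symm_apply_apply _ _

theorem card_nz (k p : ℕ) [NeZero p] : Nat.card {v : Fin k → ZMod p // v ≠ 0} = p ^ k - 1 := by
  classical
  have h := Fintype.card_subtype_compl (fun v : Fin k → ZMod p => v = 0)
  rw [Fintype.card_subtype_eq] at h
  have h2 : Nat.card {v : Fin k → ZMod p // ¬ v = 0} = _ := Nat.card_eq_fintype_card.trans h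
  refine h2.trans ?_
  simp [ZMod.card]

theorem act (k p : ℕ) (hk : 2 ≤ k) (hp : p.Prime) :
    ∃ ρ : Matrix.SpecialLinearGroup (Fin k) ℤ →* Equiv.Perm (Fin (p ^ k - 1)),
      ∀ x y, ∃ g, ρ g x = y := by
  have : Fact p.Prime := ⟨hp⟩
  have e0 : {v : Fin k → ZMod p // v ≠ 0} ≃ Fin (Nat.card {v : Fin k → ZMod p // v ≠ 0}) :=
    Finite.equivFin _
  rw [card_nz] at e0
  refine ⟨((Equiv.permCongrHom e0 : _ ≃* _) : _ →* _).comp (nz k p), ?_⟩
  intro x y
  obtain ⟨g, hg⟩ := nz_trans hk (e0.symm x) (e0.symm y)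
  refine ⟨g, ?_⟩
  show e0 (nz k p g (e0.symm x)) = y
  rw [hg]
  simp

end Pool.Agent.JAL
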