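import Pool.Agent.JAL.Gap
import Pool.Agent.JAL.Act

/-!
Every large `n` is slightly less than the degree of a transitive action of `SL_k(ℤ)`, `k ≥ 2`.
-/

set_option autoImplicit false
open Filter Topology Finset

namespace Pool.Agent.JAL

/-- `G` acts transitively on some `N` points, `n < N ≤ (1 + ε) n`, for all large `n` -/
def TransDense (G : Type) [Group G] : Prop :=
  ∀ ε : ℝ, 0 < ε → ∀ᶠ n : ℕ in atTop, ∃ N : ℕ, n < N ∧ (N : ℝ) ≤ (1 + ε) * n ∧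
    ∃ ρ : G →* Equiv.Perm (Fin N), ∀ x y, ∃ g, ρ g x = y

theorem pow_one_add (k : ℕ) (ε : ℝ) (hε : 0 < ε) :
    ∃ δ : ℝ, 0 < δ ∧ δ ≤ 1 ∧ (1 + δ) ^ k ≤ 1 + ε := by
  have h : Tendsto (fun δ : ℝ => (1 + δ) ^ k) (𝓝[>] 0) (𝓝 ((1 + 0) ^ k)) := by
    have h1 : Tendsto (fun δ : ℝ => (1 + δ) ^ k) (𝓝 0) (𝓝 ((1 + 0) ^ k)) :=
      (tendsto_const_nhds.add tendsto_id).pow k
    exact h1.mono_left nhdsWithin_le_nhds
  rw [add_zero, one_pow] at h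
  obtain ⟨δ, h1, h2⟩ := ((h.eventually (gt_mem_nhds (show (1 : ℝ) < 1 + ε by linarith))).and
    (Ioc_mem_nhdsGT (zero_lt_one (α := ℝ)))).exists
  exact ⟨δ, h2.1, h2.2, h1.le⟩

theorem dense (k : ℕ) (hk : 2 ≤ k) : TransDense (Matrix.SpecialLinearGroup (Fin k) ℤ) := by
  intro ε hε
  obtain ⟨δ, hδ0, hδ1, hδ⟩ := pow_one_add (2 * k) (ε / 2) (by positivity)
  obtain ⟨m0, hm0⟩ := eventually_atTop.1 (exists_prime δ hδ0 hδ1)
  set m1 : ℕ := max (max m0 2) (⌈2 / δ⌉₊ + 1) with hm1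
  filter_upwards [eventually_ge_atTop (m1 ^ k), eventually_ge_atTop (⌈4 / ε⌉₊ + 4),
    tendsto_natCast_atTop_atTop.eventually_ge_atTop (2 / ε * (1 + ε))] with n hn hn4 hnε
  have hex : ∃ m : ℕ, n + 1 < m ^ k :=
    ⟨n + 2, lt_of_lt_of_le (by omega) (Nat.le_self_pow (by omega) (n + 2))⟩
  classical
  set m : ℕ := Nat.find hex with hm
  have hmk : n + 1 < m ^ k := Nat.find_spec hex
  have hmm1 : m1 < m := by
    by_contra hcon
    have h1 : m ^ k ≤ m1 ^ k := Nat.pow_le_pow_left (not_lt.1 hcon) k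
    omega
  have hm2 : (m - 1) ^ k ≤ n + 1 := by
    have := Nat.find_min hex (show m - 1 < m by omega)
    omega
  obtain ⟨p, hp, hmp, hpm⟩ := hm0 m (by omega)
  have hpk : m ^ k ≤ p ^ k := Nat.pow_le_pow_left hmp k
  refine ⟨p ^ k - 1, by omega, ?_, act k p hk hp⟩
  have h1 : (m : ℝ) ≤ (1 + δ) * ((m - 1 : ℕ) : ℝ) := by
    have h2 : ⌈2 / δ⌉₊ ≤ m - 1 := by omega
    have h3 : 2 / δ ≤ ((m - 1 : ℕ) : ℝ) := (Nat.le_ceil _).trans (by exact_mod_cast h2)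
    rw [div_le_iff₀ hδ0] at h3
    have h4 : ((m - 1 : ℕ) : ℝ) + 1 = m := by
      have : m - 1 + 1 = m := by omega
      exact_mod_cast this
    nlinarith
  have h5 : (p : ℝ) ≤ (1 + δ) ^ 2 * ((m - 1 : ℕ) : ℝ) := by
    calc (p : ℝ) ≤ (1 + δ) * m := hpm
      _ ≤ (1 + δ) * ((1 + δ) * ((m - 1 : ℕ) : ℝ)) := mul_le_mul_of_nonneg_left h1 (by positivity)
      _ = _ := by ring
  have h6 : (p : ℝ) ^ k ≤ (1 + ε / 2) * (n + 1) := by
    calc (p : ℝ) ^ k ≤ ((1 + δ) ^ 2 * ((m - 1 : ℕ) : ℝ)) ^ k :=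
          pow_le_pow_left₀ (by positivity) h5 k
      _ = (1 + δ) ^ (2 * k) * (((m - 1 : ℕ) : ℝ)) ^ k := by rw [mul_pow, ← pow_mul]
      _ ≤ (1 + ε / 2) * (n + 1) := by
          apply mul_le_mul hδ _ (by positivity) (by positivity)
          exact_mod_cast hm2
  have h7 : ((p ^ k - 1 : ℕ) : ℝ) ≤ (p : ℝ) ^ k := by
    have : p ^ k - 1 ≤ p ^ k := Nat.sub_le _ _
    exact_mod_cast this
  have h8 : (1 + ε / 2) ≤ ε / 2 * n := by
    have h9 := mul_le_mul_of_nonneg_left hnε (show 0 ≤ ε / 2 by positivity)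
    have h10 : ε / 2 * (2 / ε * (1 + ε)) = 1 + ε := by field_simp
    linarith
  linarith

end Pool.Agent.JAL
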