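import Pool.Agent.FS84.Slack
import Pool.Agent.JAL.Dense

/-!
No prescribed slack `s(n) = o(n)` suffices, at any large `n`, for a group with the near invariance
property whose finite transitive actions have sufficiently dense degrees.
-/

set_option autoImplicit false
open Filter Topology Finset

namespace Pool.Agent.JAL

open Pool.Agent.H51K Pool.Agent.FS84

variable {G : Type} [Group G]

/-- `f n` is the truncation to `n` points of a transitive action on `N n` points -/
theorem choice (hd : TransDense G) (s : ℕ → ℕ)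
    (hs : Tendsto (fun n => (s n : ℝ) / n) atTop (𝓝 0)) :
    ∃ (N : ℕ → ℕ) (f : (n : ℕ) → G → Equiv.Perm (Fin n))
      (ρ : (n : ℕ) → G →* Equiv.Perm (Fin (N n))) (hle : ∀ n, n ≤ N n),
      (∀ n, n + s n < N n) ∧ (∀ n x y, ∃ g, ρ n g x = y) ∧
      (∀ n g (x : Fin n), (ρ n g (Fin.castLE (hle n) x) : ℕ) < n →
        (f n g x : ℕ) = ρ n g (Fin.castLE (hle n) x)) ∧
      ∀ ε : ℝ, 0 < ε → ∀ᶠ n : ℕ in atTop, (N n : ℝ) - n ≤ ε * n := by
  classical
  have hex : ∀ n, ∃ N : ℕ, n + s n < N ∧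
      ∃ ρ : G →* Equiv.Perm (Fin N), ∀ x y, ∃ g, ρ g x = y := by
    intro n
    obtain ⟨K, hK⟩ := eventually_atTop.1 (hd 1 one_pos)
    obtain ⟨N, h1, -, h2⟩ := hK (max K (n + s n)) (le_max_left _ _)
    exact ⟨N, lt_of_le_of_lt (le_max_right _ _) h1, h2⟩
  have hspec := fun n => Nat.find_spec (hex n)
  have hlt : ∀ n, n + s n < Nat.find (hex n) := fun n => (hspec n).1
  have hle : ∀ n, n ≤ Nat.find (hex n) := fun n => by
    have := hlt n
    omega
  choose ρ hρ using fun n => (hspec n).2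
  choose f hf using fun n g => trunc (hle n) (ρ n g)
  refine ⟨fun n => Nat.find (hex n), f, ρ, hle, hlt, hρ, fun n g x h => hf n g x h, ?_⟩
  intro ε hε
  set δ : ℝ := min 1 (ε / 3) with hδ
  have hδ0 : 0 < δ := by positivity
  have hδ1 : δ ≤ 1 := min_le_left _ _
  have hδε : δ ≤ ε / 3 := min_le_right _ _
  obtain ⟨K, hK⟩ := eventually_atTop.1 (hd δ hδ0)
  have h2 := (tendsto_order.1 hs).2 δ hδ0
  filter_upwards [h2, eventually_ge_atTop K, eventually_gt_atTop 0] with n hn hnK hn0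
  have hn0' : (0 : ℝ) < n := by exact_mod_cast hn0
  rw [div_lt_iff₀ hn0'] at hn
  obtain ⟨N, h3, h4, h5⟩ := hK (n + s n) (by omega)
  have h6 : Nat.find (hex n) ≤ N := Nat.find_min' (hex n) ⟨h3, h5⟩
  have h7 : ((Nat.find (hex n) : ℕ) : ℝ) ≤ N := by exact_mod_cast h6
  have h8 : ((n + s n : ℕ) : ℝ) ≤ (1 + δ) * n := by
    push_cast
    linarith
  have h9 : (N : ℝ) ≤ (1 + δ) * ((1 + δ) * n) :=
    h4.trans (mul_le_mul_of_nonneg_left h8 (by positivity))
  have h10 : δ * δ ≤ δ := by nlinarith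
  have h11 : δ * δ * (n : ℝ) ≤ δ * n := mul_le_mul_of_nonneg_right h10 hn0'.le
  have h12 : δ * (n : ℝ) ≤ ε / 3 * n := mul_le_mul_of_nonneg_right hδε hn0'.le
  linarith

/-- the truncations form an almost-homomorphism -/
theorem almost (N : ℕ → ℕ) (f : (n : ℕ) → G → Equiv.Perm (Fin n))
    (ρ : (n : ℕ) → G →* Equiv.Perm (Fin (N n))) (hle : ∀ n, n ≤ N n)
    (hf : ∀ n g (x : Fin n), (ρ n g (Fin.castLE (hle n) x) : ℕ) < n →
      (f n g x : ℕ) = ρ n g (Fin.castLE (hle n) x))
    (hN : ∀ ε : ℝ, 0 < ε → ∀ᶠ n : ℕ in atTop, (N n : ℝ) - n ≤ ε * n) : AlmostHom f := by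
  classical
  intro g h
  rw [Metric.tendsto_atTop]
  intro ε hε
  obtain ⟨K, hK⟩ := eventually_atTop.1 (hN (ε / 4) (by positivity))
  refine ⟨max K 1, ?_⟩
  intro n hn
  have hnK : K ≤ n := le_trans (le_max_left _ _) hn
  have hn1 : 1 ≤ n := le_trans (le_max_right _ _) hn
  have hn0 : (0 : ℝ) < n := by exact_mod_cast hn1
  rw [Real.dist_eq, sub_zero, ham, abs_of_nonneg (by positivity)]
  have h4 := hK n hnK
  have h3 := hf n
  have hle := hle n
  have hsub : (univ.filter fun x => (f n g * f n h) x ≠ f n (g * h) x) ⊆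
      (univ.filter fun x : Fin n => n ≤ (ρ n h (Fin.castLE hle x) : ℕ)) ∪
      (univ.filter fun x : Fin n => n ≤ (ρ n (g * h) (Fin.castLE hle x) : ℕ)) := by
    intro x hx
    rw [mem_filter] at hx
    rw [mem_union, mem_filter, mem_filter]
    by_contra hc
    push Not at hc
    obtain ⟨hc1, hc2⟩ := hc
    have hc1 := hc1 (mem_univ _)
    have hc2 := hc2 (mem_univ _)
    apply hx.2
    apply Fin.ext
    have h5 := h3 h x hc1
    have h6 : Fin.castLE hle (f n h x) = ρ n h (Fin.castLE hle x) := Fin.ext h5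
    have h7 : (ρ n g (Fin.castLE hle (f n h x)) : ℕ) = ρ n (g * h) (Fin.castLE hle x) := by
      rw [h6, map_mul]
      rfl
    have h8 := h3 g (f n h x) (by rw [h7]; exact hc2)
    rw [Equiv.Perm.mul_apply, h8, h7, h3 (g * h) x hc2]
  have h5 : (((univ.filter fun x => (f n g * f n h) x ≠ f n (g * h) x).card : ℕ) : ℝ)
      ≤ 2 * (N n - n) := by
    have h6 := (Finset.card_le_card hsub).trans (Finset.card_union_le _ _)
    have h7 := card_high hle (ρ n h)
    have h8 := card_high hle (ρ n (g * h))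
    have h9 : (univ.filter fun x => (f n g * f n h) x ≠ f n (g * h) x).card ≤
        2 * (N n - n) := by omega
    have h10 : (((univ.filter fun x => (f n g * f n h) x ≠ f n (g * h) x).card : ℕ) : ℝ)
        ≤ ((2 * (N n - n) : ℕ) : ℝ) := by exact_mod_cast h9
    rw [Nat.cast_mul, Nat.cast_sub hle] at h10
    exact_mod_cast h10
  rw [div_lt_iff₀ hn0]
  have : ε / 4 * (n : ℝ) < ε / 2 * n := by nlinarith
  nlinarith

/-- the truncations are close to the actions -/
theorem close (N : ℕ → ℕ) (f : (n : ℕ) → G → Equiv.Perm (Fin n))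
    (ρ : (n : ℕ) → G →* Equiv.Perm (Fin (N n))) (hle : ∀ n, n ≤ N n)
    (hf : ∀ n g (x : Fin n), (ρ n g (Fin.castLE (hle n) x) : ℕ) < n →
      (f n g x : ℕ) = ρ n g (Fin.castLE (hle n) x))
    (hN : ∀ ε : ℝ, 0 < ε → ∀ᶠ n : ℕ in atTop, (N n : ℝ) - n ≤ ε * n) : FlexClose f := by
  classical
  refine ⟨N, ρ, hle, ?_⟩
  intro g
  rw [Metric.tendsto_atTop]
  intro ε hε
  obtain ⟨K, hK⟩ := eventually_atTop.1 (hN (ε / 4) (by positivity))
  refine ⟨max K 1, ?_⟩
  intro n hn
  have hn0 : (0 : ℝ) < n := by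
    have : 1 ≤ n := le_trans (le_max_right _ _) hn
    exact_mod_cast this
  have h1 := hK n (le_trans (le_max_left _ _) hn)
  have h0 : 0 ≤ flex (f n g) (ρ n g) := by
    unfold flex
    positivity
  rw [Real.dist_eq, sub_zero, abs_of_nonneg h0, flex_eq _ _ (hle n), div_lt_iff₀ hn0]
  have h2 : ((univ.filter fun x : Fin n => (f n g x : ℕ) ≠ ρ n g (Fin.castLE (hle n) x)).card : ℝ) ≤
      (N n : ℝ) - n := by
    have h3 : (univ.filter fun x : Fin n => (f n g x : ℕ) ≠ ρ n g (Fin.castLE (hle n) x)).card ≤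
        N n - n := by
      refine le_trans (Finset.card_le_card ?_) (card_high (hle n) (ρ n g))
      intro x hx
      rw [mem_filter] at hx ⊢
      refine ⟨mem_univ _, ?_⟩
      by_contra hc
      exact hx.2 (hf n g x (not_le.1 hc))
    have h4 : ((univ.filter fun x : Fin n =>
        (f n g x : ℕ) ≠ ρ n g (Fin.castLE (hle n) x)).card : ℝ) ≤ ((N n - n : ℕ) : ℝ) := by
      exact_mod_cast h3
    rwa [Nat.cast_sub (hle n)] at h4
  have h5 : 0 < ε * (n : ℝ) := by positivity
  linarith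

/-- for all large `n`, `f n` is far from all actions on at most `n + s n` points -/
theorem jump_all (hT : HasNear G) (hd : TransDense G) :
    ∃ (F : Finset G) (c : ℝ), 0 < c ∧ ∀ s : ℕ → ℕ,
      Tendsto (fun n => (s n : ℝ) / n) atTop (𝓝 0) →
      ∃ f : (n : ℕ) → G → Equiv.Perm (Fin n), AlmostHom f ∧ FlexClose f ∧
        ∀ᶠ n : ℕ in atTop, ∀ M : ℕ, 1 ≤ M → M ≤ n + s n → ∀ τ : G →* Equiv.Perm (Fin M),
          ∃ a ∈ F, c ≤ flex (f n a) (τ a) := by
  classical
  obtain ⟨F, C, hC, hmatch⟩ := matching hT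
  -- a small constant
  set c : ℝ := 1 / (8 * (C * (F.card + 1) + 1)) with hc
  have hcard : (0 : ℝ) ≤ F.card := by positivity
  have hD : (0 : ℝ) < C * (F.card + 1) + 1 := by positivity
  have hc0 : 0 < c := by positivity
  refine ⟨insert 1 F, c, hc0, ?_⟩
  intro s hs
  obtain ⟨N', f, ρ', hle', hlt', htrans', hf', hN'⟩ := choice hd s hs
  refine ⟨f, almost N' f ρ' hle' hf' hN', close N' f ρ' hle' hf' hN', ?_⟩
  filter_upwards [hN' c hc0, eventually_ge_atTop 1] with n h4 hn1
  intro M hm1 hm2 τ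
  by_contra hcon
  push Not at hcon
  have hn0 : (0 : ℝ) < n := by exact_mod_cast hn1
  have h1 := hlt' n
  have h3 := hf' n
  have htrans := htrans' n
  revert h4 h1 h3 htrans
  generalize ρ' n = ρ
  generalize hle' n = hle
  revert ρ hle
  generalize N' n = N
  intro ρ hle h4 h1 h3 htrans
  set q : ℕ := min n M with hq
  have hq1 : 1 ≤ q := le_min hn1 hm1
  have hqn : q ≤ n := min_le_left _ _
  have hqm : q ≤ M := min_le_right _ _
  have hqN : q ≤ N := hqn.trans hle
  have hq0 : (0 : ℝ) < q := by exact_mod_cast hq1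
  -- consequences of `flex < c`
  have hflex : ∀ a ∈ insert 1 F, (((univ.filter fun x : Fin q =>
      (f n a ⟨x, lt_of_lt_of_le x.2 hqn⟩ : ℕ) ≠ τ a ⟨x, lt_of_lt_of_le x.2 hqm⟩).card : ℕ) : ℝ)
      + |(n : ℝ) - M| < c * n := by
    intro a ha
    have h5 := hcon a ha
    rw [flex, div_lt_iff₀ hq0] at h5
    have h6 : c * (q : ℝ) ≤ c * n := mul_le_mul_of_nonneg_left (by exact_mod_cast hqn) hc0.le
    exact lt_of_lt_of_le h5 h6
  have hc8 : c ≤ 1 / 8 := by
    rw [hc]
    apply one_div_le_one_div_of_le (by norm_num)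
    nlinarith
  have hqhalf : (n : ℝ) / 2 ≤ q := by
    have h5 := hflex 1 (mem_insert_self _ _)
    have h6 : (0 : ℝ) ≤ (((univ.filter fun x : Fin q =>
      (f n 1 ⟨x, lt_of_lt_of_le x.2 hqn⟩ : ℕ) ≠ τ 1 ⟨x, lt_of_lt_of_le x.2 hqm⟩).card : ℕ) : ℝ) :=
      by positivity
    have h7 : (n : ℝ) - M ≤ c * n := by
      have := le_abs_self ((n : ℝ) - M)
      linarith
    have h8 : c * (n : ℝ) ≤ 1 / 8 * n := mul_le_mul_of_nonneg_right hc8 hn0.le
    rw [hq, Nat.cast_min]
    apply le_min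
    · linarith
    · linarith
  -- the partial isomorphism
  set A : Finset (Fin N) := univ.filter fun x => (x : ℕ) < q with hA
  have hm0 : 0 < M := hm1
  set ι : Fin N → Fin M := fun x => if hx : (x : ℕ) < M then ⟨x, hx⟩ else ⟨0, hm0⟩ with hι
  have hιx : ∀ x : Fin N, (x : ℕ) < q → (ι x : ℕ) = x := by
    intro x hx
    have : (x : ℕ) < M := lt_of_lt_of_le hx hqm
    simp only [hι, this, dite_true]
  have hinj : Set.InjOn ι A := by
    intro x hx y hy hxy
    have hx' : (x : ℕ) < q := (mem_filter.1 hx).2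
    have hy' : (y : ℕ) < q := (mem_filter.1 hy).2
    apply Fin.ext
    rw [← hιx x hx', ← hιx y hy', hxy]
  obtain ⟨B, hBinv, -, hBcol, hBcard⟩ := hmatch (Fin N) (Fin M) ρ τ A ι hinj
  have hAcard : A.card = q := by
    have : A.card = (A.map Fin.valEmbedding).card := by rw [Finset.card_map]
    rw [this]
    have h5 : A.map Fin.valEmbedding = Finset.range q := by
      ext y
      simp only [hA, Finset.mem_map, mem_filter, mem_univ, true_and, Fin.valEmbedding_apply, mem_range]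
      constructor
      · rintro ⟨z, hz, rfl⟩
        exact hz
      · intro h5
        exact ⟨⟨y, lt_of_lt_of_le h5 hqN⟩, h5, rfl⟩
    rw [h5, Finset.card_range]
  have hbad : ∀ a ∈ F, ((A.filter fun x => ρ a x ∉ A ∨ ι (ρ a x) ≠ τ a (ι x)).card : ℝ) ≤
      3 * c * n := by
    intro a ha
    have hsub : (A.filter fun x => ρ a x ∉ A ∨ ι (ρ a x) ≠ τ a (ι x)) ⊆
        ((univ.filter fun x : Fin q => (f n a ⟨x, lt_of_lt_of_le x.2 hqn⟩ : ℕ) ≠
          τ a ⟨x, lt_of_lt_of_le x.2 hqm⟩).image (Fin.castLE hqN)) ∪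
        ((univ.filter fun y : Fin N => q ≤ (y : ℕ)).image (ρ a).symm) := by
      intro x hx
      rw [mem_filter] at hx
      obtain ⟨hxA, hx⟩ := hx
      have hxq : (x : ℕ) < q := (mem_filter.1 hxA).2
      rw [mem_union]
      by_cases hy : (ρ a x : ℕ) < q
      · left
        rw [mem_image]
        refine ⟨⟨x, hxq⟩, ?_, Fin.ext rfl⟩
        rw [mem_filter]
        refine ⟨mem_univ _, ?_⟩
        have hyA : ρ a x ∈ A := by
          rw [hA, mem_filter]
          exact ⟨mem_univ _, hy⟩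
        have hx' : ι (ρ a x) ≠ τ a (ι x) := by
          rcases hx with hx | hx
          · exact absurd hyA hx
          · exact hx
        intro heq
        apply hx'
        apply Fin.ext
        rw [hιx _ hy]
        have e1 : (⟨x, lt_of_lt_of_le hxq hqm⟩ : Fin M) = ι x := Fin.ext (hιx x hxq).symm
        have e2 : Fin.castLE hle ⟨x, lt_of_lt_of_le hxq hqn⟩ = x := Fin.ext rfl
        have h5 := h3 a ⟨x, lt_of_lt_of_le hxq hqn⟩ (by rw [e2]; exact lt_of_lt_of_le hy hqn)
        rw [e2] at h5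
        simp only at heq
        rw [h5, e1] at heq
        exact heq
      · right
        rw [mem_image]
        refine ⟨ρ a x, ?_, by simp⟩
        rw [mem_filter]
        exact ⟨mem_univ _, not_lt.1 hy⟩
    have hN' : (univ.filter fun y : Fin N => q ≤ (y : ℕ)).card = N - q := by
      have h5 : (univ.filter fun y : Fin N => q ≤ (y : ℕ)) = univ \ A := by
        ext y
        simp only [hA, mem_filter, mem_univ, true_and, Finset.mem_sdiff, not_lt]
      rw [h5, Finset.card_sdiff_of_subset (Finset.subset_univ _), Finset.card_univ,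
        Fintype.card_fin, hAcard]
    have h5 := (Finset.card_le_card hsub).trans (Finset.card_union_le _ _)
    have h6 : (A.filter fun x => ρ a x ∉ A ∨ ι (ρ a x) ≠ τ a (ι x)).card ≤
        (univ.filter fun x : Fin q => (f n a ⟨x, lt_of_lt_of_le x.2 hqn⟩ : ℕ) ≠
          τ a ⟨x, lt_of_lt_of_le x.2 hqm⟩).card + (N - q) := by
      refine h5.trans ?_
      refine Nat.add_le_add Finset.card_image_le ?_
      rw [← hN']
      exact Finset.card_image_le
    have h7 : ((A.filter fun x => ρ a x ∉ A ∨ ι (ρ a x) ≠ τ a (ι x)).card : ℝ) ≤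
        (((univ.filter fun x : Fin q => (f n a ⟨x, lt_of_lt_of_le x.2 hqn⟩ : ℕ) ≠
          τ a ⟨x, lt_of_lt_of_le x.2 hqm⟩).card : ℕ) : ℝ) + (N - q) := by
      have h8 : ((A.filter fun x => ρ a x ∉ A ∨ ι (ρ a x) ≠ τ a (ι x)).card : ℝ) ≤
        (((univ.filter fun x : Fin q => (f n a ⟨x, lt_of_lt_of_le x.2 hqn⟩ : ℕ) ≠
          τ a ⟨x, lt_of_lt_of_le x.2 hqm⟩).card + (N - q) : ℕ) : ℝ) := by exact_mod_cast h6
      rw [Nat.cast_add, Nat.cast_sub hqN] at h8
      exact h8
    have h8 := hflex a (mem_insert_of_mem ha)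
    have h9 : (n : ℝ) - q ≤ |(n : ℝ) - M| := by
      rw [hq, Nat.cast_min]
      rcases le_total (n : ℝ) M with h10 | h10
      · rw [min_eq_left h10, sub_self]
        exact abs_nonneg _
      · rw [min_eq_right h10]
        exact le_abs_self _
    have h10 : |(n : ℝ) - M| ≤ c * n := by
      have : (0 : ℝ) ≤ (((univ.filter fun x : Fin q => (f n a ⟨x, lt_of_lt_of_le x.2 hqn⟩ : ℕ) ≠
          τ a ⟨x, lt_of_lt_of_le x.2 hqm⟩).card : ℕ) : ℝ) := by positivity
      linarith
    linarith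
  have hlt : ((A.filter fun x => (x, ι x) ∉ B).card : ℝ) < A.card := by
    have h5 : ∑ a ∈ F, ((A.filter fun x => ρ a x ∉ A ∨ ι (ρ a x) ≠ τ a (ι x)).card : ℝ) ≤
        F.card * (3 * c * n) := by
      have := Finset.sum_le_sum hbad
      rwa [Finset.sum_const, nsmul_eq_mul] at this
    have h6 := mul_le_mul_of_nonneg_left h5 hC.le
    have h7 : C * (F.card * (3 * c * n)) < n / 2 := by
      have h8 : c * (C * (F.card + 1) + 1) = 1 / 8 := by
        rw [hc]
        field_simp
      have h9 : C * (F.card : ℝ) * c ≤ 1 / 8 := by nlinarith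
      have h10 : C * (F.card * (3 * c * n)) = 3 * (C * (F.card : ℝ) * c) * n := by ring
      rw [h10]
      nlinarith
    rw [hAcard]
    linarith
  have hex : ∃ x ∈ A, (x, ι x) ∈ B := by
    by_contra hcon
    push Not at hcon
    rw [Finset.filter_true_of_mem hcon] at hlt
    exact lt_irrefl _ hlt
  obtain ⟨x0, -, hx0⟩ := hex
  have hall : ∀ x : Fin N, ∃ y : Fin M, (x, y) ∈ B := by
    intro x
    obtain ⟨g, hg⟩ := htrans x0 x
    refine ⟨τ g (ι x0), ?_⟩
    have := (hBinv g x0 (ι x0)).2 hx0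
    rwa [hg] at this
  choose φ hφ using hall
  have hφi : Function.Injective φ := by
    intro x x' h
    have h5 := hφ x
    have h6 := hφ x'
    rw [h] at h5
    exact hBcol _ _ _ h5 h6
  have h5 := Fintype.card_le_of_injective φ hφi
  rw [Fintype.card_fin, Fintype.card_fin] at h5
  omega


end Pool.Agent.JAL
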