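import Pool.Agent.PC.PNTAP

/-!
Primes in short intervals `[m, (1 + δ) m)`, from the prime number theorem.
-/

set_option autoImplicit false
open Filter Topology Finset

namespace Pool.Agent.JAL

theorem exists_prime (δ : ℝ) (hδ : 0 < δ) (hδ1 : δ ≤ 1) : ∀ᶠ m : ℕ in atTop,
    ∃ p : ℕ, p.Prime ∧ m ≤ p ∧ (p : ℝ) ≤ (1 + δ) * m := by
  have h0 := Pool.Agent.PC.pnt_ap 1 1 one_pos (Nat.coprime_one_right 1)
  simp only [Nat.totient_one, Nat.cast_one, div_one, Nat.mod_one, and_true] at h0
  set η : ℝ := δ / 12 with hη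
  have hη0 : 0 < η := by positivity
  have hlo := h0.eventually (lt_mem_nhds (show 1 - η < 1 by linarith))
  have hhi := h0.eventually (gt_mem_nhds (show 1 < 1 + η by linarith))
  obtain ⟨K, hK⟩ := eventually_atTop.1 hlo
  have hlog : ∀ᶠ m : ℕ in atTop, Real.log 2 / η ≤ Real.log m :=
    (Real.tendsto_log_atTop.comp tendsto_natCast_atTop_atTop).eventually_ge_atTop _
  have hbig : ∀ᶠ m : ℕ in atTop, 2 / δ ≤ (m : ℝ) :=
    tendsto_natCast_atTop_atTop.eventually_ge_atTop _
  filter_upwards [hhi, eventually_ge_atTop K, eventually_ge_atTop 2, hlog, hbig] with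
    m hm hmK hm2 hml hmb
  have hm0 : (0 : ℝ) < m := by
    have : (2 : ℝ) ≤ m := by exact_mod_cast hm2
    linarith
  have hm2' : (2 : ℝ) ≤ m := by exact_mod_cast hm2
  have hlm : 0 < Real.log m := Real.log_pos (by linarith)
  set M : ℕ := ⌊(1 + δ) * (m : ℝ)⌋₊ with hM
  have hMle : (M : ℝ) ≤ (1 + δ) * m := Nat.floor_le (by positivity)
  have hMge : (1 + δ) * m < M + 1 := Nat.lt_floor_add_one _
  have hMm : m ≤ M := by
    apply Nat.le_floor
    nlinarith
  have hM0 : (0 : ℝ) < M := lt_of_lt_of_le hm0 (by exact_mod_cast hMm)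
  have hMlow : (1 + δ / 2) * m ≤ M := by
    have h1 : 1 ≤ δ / 2 * m := by
      rw [div_le_iff₀ hδ] at hmb
      linarith
    linarith
  by_contra hcon
  push Not at hcon
  have hsub : (range M).filter (fun p => p.Prime) ⊆ (range m).filter (fun p => p.Prime) := by
    intro p hp
    rw [mem_filter, mem_range] at hp ⊢
    refine ⟨?_, hp.2⟩
    by_contra hpm
    have h1 := hcon p hp.2 (not_lt.1 hpm)
    have h2 : (p : ℝ) ≤ M := by exact_mod_cast hp.1.le
    linarith
  have hcard : (((range M).filter (fun p => p.Prime)).card : ℝ) ≤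
      ((range m).filter (fun p => p.Prime)).card := by
    exact_mod_cast Finset.card_le_card hsub
  have h1 := hK M (hmK.trans hMm)
  rw [lt_div_iff₀ hM0] at h1
  rw [div_lt_iff₀ hm0] at hm
  have hlM : Real.log M ≤ (1 + η) * Real.log m := by
    have h2 : Real.log M ≤ Real.log (2 * m) := by
      apply Real.log_le_log hM0
      nlinarith
    rw [Real.log_mul (by norm_num) hm0.ne'] at h2
    rw [div_le_iff₀ hη0] at hml
    linarith
  have hlM0 : 0 < Real.log M := Real.log_pos (by
    have : (m : ℝ) ≤ M := by exact_mod_cast hMm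
    linarith)
  set a : ℝ := (((range M).filter (fun p => p.Prime)).card : ℝ) with ha
  set b : ℝ := (((range m).filter (fun p => p.Prime)).card : ℝ) with hb
  have hb0 : 0 ≤ b := by positivity
  have ha0 : 0 ≤ a := by positivity
  -- `(1 - η) M < a log M ≤ b (1 + η) log m < (1 + η)² m`
  have h2 : (1 - η) * M < (1 + η) * ((1 + η) * m) := by
    calc (1 - η) * M < a * Real.log M := h1
      _ ≤ b * ((1 + η) * Real.log m) := mul_le_mul hcard hlM hlM0.le hb0
      _ = (1 + η) * (b * Real.log m) := by ring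
      _ ≤ (1 + η) * ((1 + η) * m) := mul_le_mul_of_nonneg_left hm.le (by positivity)
  have h3 : (1 - η) * ((1 + δ / 2) * m) ≤ (1 - η) * M :=
    mul_le_mul_of_nonneg_left hMlow (by rw [hη]; linarith)
  have h4 : (1 + η) * (1 + η) ≤ (1 - η) * (1 + δ / 2) := by
    rw [hη]
    nlinarith
  have h5 := mul_le_mul_of_nonneg_right h4 hm0.le
  linarith

end Pool.Agent.JAL
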